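import Pool.Agent.MP3ada3c.Basic

set_option autoImplicit false

open Set Topology WeakDual

namespace Pool.Agent.MP3ada3c

/-- The compact space carrying the example. -/
abbrev Sp : Type := Cube × Circle

/-- Inclusion of the circle over the point `l`. -/
noncomputable def fib (l : Cube) : C(Circle, Sp) := ⟨fun ζ => (l, ζ), by fun_prop⟩

/-- Restriction to the circle over `l`. -/
noncomputable def res (l : Cube) : C(Sp, ℂ) →ₐ[ℂ] C(Circle, ℂ) :=
  ContinuousMap.compRightAlgHom ℂ ℂ (fib l)

theorem res_apply (l : Cube) (f : C(Sp, ℂ)) (ζ : Circle) : res l f ζ = f (l, ζ) := rfl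

theorem continuous_res (l : Cube) : Continuous (res l) :=
  ContinuousMap.continuous_precomp (fib l)

/-- `l ↦ f(l, ·)` is continuous. -/
theorem continuous_res_left (f : C(Sp, ℂ)) : Continuous fun l => res l f :=
  f.curry.continuous

/-- The hedgehog: points with at most one nonzero coordinate. -/
def Lset : Set Cube := {x | ∀ r s, r ≠ s → x r = 0 ∨ x s = 0}

/-- The algebra of the example. -/
noncomputable def algA : Subalgebra ℂ C(Sp, ℂ) where
  carrier := {f | (∀ l ∈ Lset, res l f ∈ discAlg) ∧ ∀ ζ ζ' : Circle, f (0, ζ) = f (0, ζ')}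
  mul_mem' := by
    rintro f g ⟨hf1, hf2⟩ ⟨hg1, hg2⟩
    refine ⟨fun l hl => ?_, fun ζ ζ' => ?_⟩
    · rw [map_mul]; exact mul_mem (hf1 l hl) (hg1 l hl)
    · simp only [ContinuousMap.mul_apply]; rw [hf2 ζ ζ', hg2 ζ ζ']
  add_mem' := by
    rintro f g ⟨hf1, hf2⟩ ⟨hg1, hg2⟩
    refine ⟨fun l hl => ?_, fun ζ ζ' => ?_⟩
    · rw [map_add]; exact add_mem (hf1 l hl) (hg1 l hl)
    · simp only [ContinuousMap.add_apply]; rw [hf2 ζ ζ', hg2 ζ ζ']
  algebraMap_mem' := by
    intro c
    refine ⟨fun l hl => ?_, fun ζ ζ' => rfl⟩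
    rw [AlgHom.commutes]; exact algebraMap_mem _ _

theorem mem_algA {f : C(Sp, ℂ)} : f ∈ algA ↔
    (∀ l ∈ Lset, res l f ∈ discAlg) ∧ ∀ ζ ζ' : Circle, f (0, ζ) = f (0, ζ') := Iff.rfl

theorem isClosed_algA : IsClosed (algA : Set C(Sp, ℂ)) := by
  have : (algA : Set C(Sp, ℂ)) = (⋂ l ∈ Lset, (res l) ⁻¹' (discAlg : Set C(Circle, ℂ))) ∩
      ⋂ ζ : Circle, ⋂ ζ' : Circle, {f : C(Sp, ℂ) | f (0, ζ) = f (0, ζ')} := by
    ext f
    simp only [SetLike.mem_coe, mem_algA, mem_inter_iff, mem_iInter, mem_preimage, mem_ofPred_eq]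
  rw [this]
  refine IsClosed.inter ?_ ?_
  · exact isClosed_biInter fun l _ => isClosed_discAlg.preimage (continuous_res l)
  · exact isClosed_iInter fun ζ => isClosed_iInter fun ζ' =>
      isClosed_eq (continuous_eval_const _) (continuous_eval_const _)

/-- The Banach algebra of the example, as a type. -/
def AA : Type := algA

noncomputable instance : NormedCommRing AA := inferInstanceAs (NormedCommRing algA)

noncomputable instance : NormedAlgebra ℂ AA := inferInstanceAs (NormedAlgebra ℂ algA)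

instance : CompleteSpace AA := isClosed_algA.completeSpace_coe

/-- The inclusion. -/
noncomputable def inc : AA →ₐ[ℂ] C(Sp, ℂ) := algA.val

theorem inc_mem (f : AA) : inc f ∈ algA := f.2

theorem inc_mk (f : C(Sp, ℂ)) (hf : f ∈ algA) : inc (⟨f, hf⟩ : algA) = f := rfl

theorem inc_inj {f g : AA} (h : inc f = inc g) : f = g := Subtype.ext h

theorem norm_inc (f : AA) : ‖inc f‖ = ‖f‖ := rfl

theorem continuous_inc : Continuous inc := continuous_subtype_val

/-- Scaling a point of the cube. -/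
def scale (t : unitInterval) (l : Cube) : Cube := fun r => t * l r

theorem scale_mem {t : unitInterval} {l : Cube} (hl : l ∈ Lset) : scale t l ∈ Lset := by
  intro r s hrs
  rcases hl r s hrs with h | h
  · left; simp [scale, h]
  · right; simp [scale, h]

theorem zero_mem_L : (0 : Cube) ∈ Lset := fun _ _ _ => Or.inl rfl

/-- Inverse-closedness: an element of `algA` without zeros is invertible in `algA`. -/
theorem exists_inverse (g : C(Sp, ℂ)) (hgA : g ∈ algA) (hg : ∀ p : Sp, g p ≠ 0) :
    ∃ w ∈ algA, g * w = 1 := by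
  set w : C(Sp, ℂ) := ⟨fun p => (g p)⁻¹, g.continuous.inv₀ hg⟩ with hw
  have hgw : g * w = 1 := by
    ext p
    simp [hw, hg p]
  refine ⟨w, ⟨fun l hl => ?_, fun ζ ζ' => ?_⟩, hgw⟩
  · -- path from 0 to l
    have hunit : ∀ k : Cube, IsUnit (res k g) := fun k => by
      refine IsUnit.of_mul_eq_one (res k w) ?_
      rw [← map_mul, hgw, map_one]
    have hinv : ∀ k : Cube, Ring.inverse (res k g) = res k w := fun k => by
      have h1 : res k g * res k w = 1 := by rw [← map_mul, hgw, map_one]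
      rw [← mul_one (Ring.inverse (res k g)), ← h1, ← mul_assoc,
        Ring.inverse_mul_cancel _ (hunit k), one_mul]
    have hp : Continuous fun t : unitInterval => res (scale t l) g := by
      refine (continuous_res_left g).comp ?_
      refine continuous_pi fun r => ?_
      exact continuous_id.mul continuous_const
    have h1 : scale 1 l = l := by
      funext r; simp [scale]
    have h0 : scale 0 l = 0 := by
      funext r; simp [scale]
    have key := path_inverse_mem discAlg isClosed_discAlg (fun t => res (scale t l) g) hp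
      (fun t => hgA.1 _ (scale_mem hl)) (fun t => hunit _) (by
        simp only [h0]
        rw [hinv]
        have : res 0 w = algebraMap ℂ C(Circle, ℂ) (w (0, 1)) := by
          ext ζ
          rw [res_apply]
          simp only [hw, ContinuousMap.coe_mk, hgA.2 ζ 1]
          rfl
        rw [this]
        exact algebraMap_mem _ _)
    simp only [h1] at key
    rw [hinv] at key
    exact key
  · simp only [hw, ContinuousMap.coe_mk]
    rw [hgA.2 ζ ζ']

theorem isUnit_of_ne_zero (g : AA) (hg : ∀ p : Sp, inc g p ≠ 0) : IsUnit g := by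
  obtain ⟨w, hwA, hw⟩ := exists_inverse (inc g) (inc_mem g) hg
  refine IsUnit.of_mul_eq_one (show AA from ⟨w, hwA⟩) ?_
  apply inc_inj
  rw [map_mul, map_one]
  exact hw

/-- Make a character from a continuous algebra homomorphism. -/
noncomputable def mkChar {A : Type*} [NormedCommRing A] [NormedAlgebra ℂ A] (F : A →ₐ[ℂ] ℂ)
    (hF : Continuous F) : characterSpace ℂ A :=
  ⟨(⟨F.toLinearMap, hF⟩ : A →L[ℂ] ℂ), by
    rw [CharacterSpace.eq_set_map_one_map_mul]
    exact ⟨map_one F, map_mul F⟩⟩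

theorem mkChar_apply {A : Type*} [NormedCommRing A] [NormedAlgebra ℂ A] (F : A →ₐ[ℂ] ℂ)
    (hF : Continuous F) (f : A) : mkChar F hF f = F f := rfl

/-- Evaluation at a point as a character. -/
noncomputable def ptHom (p : Sp) : AA →ₐ[ℂ] ℂ := (ContinuousMap.evalAlgHom ℂ ℂ p).comp inc

theorem ptHom_apply (p : Sp) (f : AA) : ptHom p f = inc f p := rfl

theorem continuous_ptHom (p : Sp) : Continuous (ptHom p) :=
  (continuous_eval_const p).comp continuous_inc

theorem closure_subset_spectrum {A : Type*} [NormedCommRing A] [NormedAlgebra ℂ A]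
    [CompleteSpace A] (S : Set (characterSpace ℂ A)) (x : A) :
    closure ((fun φ : characterSpace ℂ A => φ x) '' S) ⊆ spectrum ℂ x := by
  refine closure_minimal ?_ (spectrum.isClosed x)
  rintro _ ⟨φ, -, rfl⟩
  exact AlgHom.apply_mem_spectrum φ x

theorem countably_generated :
    ∃ S : Set (characterSpace ℂ AA), S.Countable ∧
      ∀ x : AA, spectrum ℂ x = closure ((fun φ : characterSpace ℂ AA => φ x) '' S) := by
  have := separable_cube
  obtain ⟨Q, hQc, hQd⟩ := TopologicalSpace.exists_countable_dense Sp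
  refine ⟨(fun p => mkChar (ptHom p) (continuous_ptHom p)) '' Q, hQc.image _, fun x => ?_⟩
  apply Subset.antisymm
  · intro c hc
    by_contra hcon
    -- bounded below
    have hne : ∀ p : Sp, inc x p ≠ c := by
      intro p hp
      apply hcon
      rw [← hp]
      have hcl : p ∈ closure Q := hQd p
      refine map_mem_closure (inc x).continuous hcl ?_
      intro q hq
      exact ⟨_, ⟨q, hq, rfl⟩, rfl⟩
    have hunit : IsUnit (algebraMap ℂ AA c - x) := by
      refine isUnit_of_ne_zero _ fun p => ?_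
      rw [map_sub, AlgHom.commutes]
      show c - inc x p ≠ 0
      rw [sub_ne_zero]
      exact (hne p).symm
    exact hc hunit
  · exact closure_subset_spectrum _ x

/-- coordinate functions -/
noncomputable def piF (r : ℝ) : C(Sp, ℂ) := ⟨fun p => ((p.1 r : ℝ) : ℂ), by fun_prop⟩

theorem piF_mem (r : ℝ) : piF r ∈ algA := by
  refine ⟨fun l _ => ?_, fun ζ ζ' => rfl⟩
  have : res l (piF r) = algebraMap ℂ C(Circle, ℂ) ((l r : ℝ) : ℂ) := rfl
  rw [this]
  exact algebraMap_mem _ _

/-- The coordinate function of the circle factor. -/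
noncomputable def zF : C(Sp, ℂ) := ⟨fun p => (p.2 : ℂ), by fun_prop⟩

noncomputable def zFinv : C(Sp, ℂ) := ⟨fun p => ((p.2⁻¹ : Circle) : ℂ), by fun_prop⟩

theorem piz_mem (r : ℝ) : piF r * zF ∈ algA := by
  refine ⟨fun l _ => ?_, fun ζ ζ' => ?_⟩
  · have : res l (piF r * zF) = ((l r : ℝ) : ℂ) • zC := rfl
    rw [this]
    exact discAlg.smul_mem zC_mem _
  · simp [piF, zF]

theorem pipi_mem {r s : ℝ} (hrs : r ≠ s) : piF r * piF s * zFinv ∈ algA := by
  refine ⟨fun l hl => ?_, fun ζ ζ' => ?_⟩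
  · have : res l (piF r * piF s * zFinv) = 0 := by
      ext ζ
      simp only [res_apply, piF, zFinv, ContinuousMap.mul_apply, ContinuousMap.coe_mk,
        ContinuousMap.zero_apply]
      rcases hl r s hrs with h | h <;> simp [h]
    rw [this]
    exact zero_mem _
  · simp [piF, zFinv]

/-- elements of the algebra -/
noncomputable def aPi (r : ℝ) : AA := (⟨piF r, piF_mem r⟩ : algA)
noncomputable def aPiz (r : ℝ) : AA := (⟨piF r * zF, piz_mem r⟩ : algA)
noncomputable def aPipi {r s : ℝ} (hrs : r ≠ s) : AA :=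
  (⟨piF r * piF s * zFinv, pipi_mem hrs⟩ : algA)

theorem inc_aPi (r : ℝ) : inc (aPi r) = piF r := rfl
theorem inc_aPiz (r : ℝ) : inc (aPiz r) = piF r * zF := rfl
theorem inc_aPipi {r s : ℝ} (hrs : r ≠ s) : inc (aPipi hrs) = piF r * piF s * zFinv := rfl

/-- The basis point `e_r` of the cube. -/
noncomputable def ept (r : ℝ) : Cube := Pi.single r 1

theorem ept_mem (r : ℝ) : ept r ∈ Lset := by
  intro a b hab
  by_cases h : a = r
  · right
    rw [ept, Pi.single_apply, if_neg]
    rintro rfl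
    exact hab h
  · left
    rw [ept, Pi.single_apply, if_neg h]

/-- The disc algebra as a type. -/
def DD : Type := discAlg

noncomputable instance : NormedCommRing DD := inferInstanceAs (NormedCommRing discAlg)

noncomputable instance : NormedAlgebra ℂ DD := inferInstanceAs (NormedAlgebra ℂ discAlg)

instance : CompleteSpace DD := isClosed_discAlg.completeSpace_coe

/-- The inclusion of the disc algebra. -/
noncomputable def incD : DD →ₐ[ℂ] C(Circle, ℂ) := discAlg.val

theorem incD_inj {f g : DD} (h : incD f = incD g) : f = g := Subtype.ext h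

/-- The coordinate function. -/
noncomputable def zD : DD := (⟨zC, zC_mem⟩ : discAlg)

theorem incD_zD : incD zD = zC := rfl

theorem exists_char_zero : ∃ χ : characterSpace ℂ DD, χ zD = 0 := by
  apply WeakDual.CharacterSpace.exists_apply_eq_zero
  rintro ⟨u, hu⟩
  have h1 : (u : DD) * ((u⁻¹ : DDˣ) : DD) = 1 := u.mul_inv
  rw [hu] at h1
  have h2 := congrArg incD h1
  rw [map_mul, map_one, incD_zD] at h2
  exact inv_not_mem _ (((u⁻¹ : DDˣ) : DD) : discAlg).2 h2

/-- restriction `algA → discAlg` over a point of the hedgehog. -/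
noncomputable def resA (l : Cube) (hl : l ∈ Lset) : AA →ₐ[ℂ] DD :=
  ((res l).comp inc).codRestrict discAlg fun f => (inc_mem f).1 l hl

theorem incD_resA (l : Cube) (hl : l ∈ Lset) (f : AA) : incD (resA l hl f) = res l (inc f) := rfl

theorem exists_char_r (r : ℝ) : ∃ φ : characterSpace ℂ AA, φ (aPi r) = 1 ∧ φ (aPiz r) = 0 := by
  obtain ⟨χ, hχ⟩ := exists_char_zero
  have hcont : Continuous (resA (ept r) (ept_mem r)) := by
    refine Continuous.subtype_mk ?_ _
    exact (continuous_res _).comp continuous_inc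
  set F : AA →ₐ[ℂ] ℂ := (CharacterSpace.toAlgHom χ).comp (resA (ept r) (ept_mem r)) with hF
  have hFc : Continuous F := (map_continuous χ).comp hcont
  refine ⟨mkChar F hFc, ?_, ?_⟩
  · rw [mkChar_apply]
    have : resA (ept r) (ept_mem r) (aPi r) = 1 := by
      apply incD_inj
      rw [incD_resA, inc_aPi, map_one]
      ext ζ
      show ((ept r r : ℝ) : ℂ) = 1
      simp [ept]
    rw [hF, AlgHom.comp_apply, this, map_one]
  · rw [mkChar_apply]
    have : resA (ept r) (ept_mem r) (aPiz r) = zD := by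
      apply incD_inj
      rw [incD_resA, inc_aPiz, incD_zD]
      ext ζ
      show ((ept r r : ℝ) : ℂ) * (ζ : ℂ) = ζ
      simp [ept]
    rw [hF, AlgHom.comp_apply, this]
    exact hχ

/-- The disjoint open sets. -/
def Uset (r : ℝ) : Set (characterSpace ℂ AA) :=
  {φ | 1 / 2 < ‖φ (aPi r)‖ ∧ ‖φ (aPiz r)‖ < 1 / 8}

theorem continuous_char_norm (f : AA) : Continuous fun φ : characterSpace ℂ AA => ‖φ f‖ :=
  ((WeakDual.eval_continuous f).comp continuous_subtype_val).norm

theorem isOpen_U (r : ℝ) : IsOpen (Uset r) :=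
  (isOpen_lt continuous_const (continuous_char_norm _)).inter
    (isOpen_lt (continuous_char_norm _) continuous_const)

theorem U_nonempty (r : ℝ) : (Uset r).Nonempty := by
  obtain ⟨φ, h1, h2⟩ := exists_char_r r
  refine ⟨φ, ?_, ?_⟩
  · rw [h1]; norm_num
  · rw [h2]; norm_num

instance : NormOneClass AA := ⟨by
  rw [← norm_inc, map_one]
  exact norm_one⟩

theorem norm_char_le (φ : characterSpace ℂ AA) {f : AA} (hf : ‖f‖ ≤ 1) : ‖φ f‖ ≤ 1 := by
  have h1 := AlgHom.norm_apply_le_self_mul_norm_one (CharacterSpace.toAlgHom φ) f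
  rw [norm_one, mul_one] at h1
  exact h1.trans hf

theorem U_disjoint {r s : ℝ} (hrs : r ≠ s) : Disjoint (Uset r) (Uset s) := by
  rw [Set.disjoint_left]
  rintro φ ⟨hr1, hr2⟩ ⟨hs1, -⟩
  have hmul : aPiz r * aPipi hrs = aPi r * aPi r * aPi s := by
    apply inc_inj
    simp only [map_mul, inc_aPi, inc_aPiz, inc_aPipi]
    ext p
    show (piF r p * zF p) * (piF r p * piF s p * zFinv p) = piF r p * piF r p * piF s p
    have : zF p * zFinv p = 1 := by
      show ((p.2 : Circle) : ℂ) * ((p.2⁻¹ : Circle) : ℂ) = 1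
      rw [← Circle.coe_mul, mul_inv_cancel, Circle.coe_one]
    linear_combination (piF r p * piF r p * piF s p) * this
  have h1 := congrArg (fun f => ‖φ f‖) hmul
  simp only [map_mul, norm_mul] at h1
  have h2 : ‖φ (aPipi hrs)‖ ≤ 1 := by
    apply norm_char_le
    rw [← norm_inc, inc_aPipi, ContinuousMap.norm_le _ zero_le_one]
    rintro ⟨l, ζ⟩
    show ‖((l r : ℝ) : ℂ) * ((l s : ℝ) : ℂ) * ((ζ⁻¹ : Circle) : ℂ)‖ ≤ 1
    rw [norm_mul, norm_mul, Complex.norm_real, Complex.norm_real, Circle.norm_coe, mul_one,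
      Real.norm_eq_abs, Real.norm_eq_abs, abs_of_nonneg (l r).2.1, abs_of_nonneg (l s).2.1]
    exact mul_le_one₀ (l r).2.2 (l s).2.1 (l s).2.2
  have h3 : (1 : ℝ) / 8 < ‖φ (aPi r)‖ * ‖φ (aPi r)‖ * ‖φ (aPi s)‖ := by
    have a1 : (1 : ℝ) / 4 < ‖φ (aPi r)‖ * ‖φ (aPi r)‖ := by nlinarith
    nlinarith
  have h4 : ‖φ (aPiz r)‖ * ‖φ (aPipi hrs)‖ ≤ ‖φ (aPiz r)‖ * 1 :=
    mul_le_mul_of_nonneg_left h2 (norm_nonneg _)
  linarith

theorem not_separable : ¬ TopologicalSpace.SeparableSpace (characterSpace ℂ AA) := by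
  intro h
  have hc : (univ : Set ℝ).Countable :=
    Set.PairwiseDisjoint.countable_of_isOpen (s := Uset) (fun r _ s _ hrs => U_disjoint hrs)
      (fun r _ => isOpen_U r) (fun r _ => U_nonempty r)
  exact Cardinal.not_countable_real hc

/-- The norm is a uniform (sup) norm. -/
theorem norm_sq (a : AA) : ‖a * a‖ = ‖a‖ * ‖a‖ := by
  rw [← norm_inc, ← norm_inc, map_mul]
  apply le_antisymm (norm_mul_le _ _)
  have h1 : ‖inc a‖ ≤ Real.sqrt ‖inc a * inc a‖ := by
    rw [ContinuousMap.norm_le _ (Real.sqrt_nonneg _)]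
    intro x
    apply Real.le_sqrt_of_sq_le
    rw [sq, ← norm_mul]
    exact (inc a * inc a).norm_coe_le_norm x
  calc ‖inc a‖ * ‖inc a‖ ≤ Real.sqrt ‖inc a * inc a‖ * Real.sqrt ‖inc a * inc a‖ :=
        mul_le_mul h1 h1 (norm_nonneg _) (Real.sqrt_nonneg _)
    _ = ‖inc a * inc a‖ := Real.mul_self_sqrt (norm_nonneg _)

end Pool.Agent.MP3ada3c
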