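import Mathlib

set_option autoImplicit false

open Set Topology WeakDual

namespace Pool.Agent.MP3ada3c

/-- The cube with continuum many coordinates. -/
abbrev Cube : Type := ℝ → unitInterval

/-- Separability of the cube (Hewitt-Marczewski-Pondiczery for this case). -/
theorem separable_cube : TopologicalSpace.SeparableSpace Cube := by
  have hc : Continuous (fun f : C(ℝ, unitInterval) => (f : ℝ → unitInterval)) :=
    continuous_pi fun x => continuous_eval_const x
  have hd : DenseRange (fun f : C(ℝ, unitInterval) => (f : ℝ → unitInterval)) := by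
    intro x
    rw [mem_closure_iff]
    intro O hO hx
    obtain ⟨F, u, hu, hsub⟩ := isOpen_pi_iff.1 hO x hx
    have hF : IsClosed (F : Set ℝ) := F.finite_toSet.isClosed
    obtain ⟨g, hg⟩ := ContinuousMap.exists_restrict_eq (Y := unitInterval) hF
      (⟨fun y : (F : Set ℝ) => x y, by
        have : DiscreteTopology (F : Set ℝ) := F.finite_toSet.isDiscrete.to_subtype
        exact continuous_of_discreteTopology⟩)
    refine ⟨g, hsub ?_, ⟨g, rfl⟩⟩
    intro a ha
    have h2 : g a = x a := congrArg (fun h : C((F : Set ℝ), unitInterval) => h ⟨a, ha⟩) hg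
    show g a ∈ u a
    rw [h2]
    exact (hu a ha).2
  exact hd.separableSpace hc

/-- Propagation of invertibility in a closed subalgebra along a path. -/
theorem path_inverse_mem {C : Type*} [NormedCommRing C] [NormedAlgebra ℂ C] [CompleteSpace C]
    (D : Subalgebra ℂ C) (hD : IsClosed (D : Set C)) (p : unitInterval → C) (hp : Continuous p)
    (hpD : ∀ t, p t ∈ D) (hu : ∀ t, IsUnit (p t)) (h0 : Ring.inverse (p 0) ∈ D) :
    Ring.inverse (p 1) ∈ D := by
  have hcs : CompleteSpace D := hD.completeSpace_coe
  have hinv : Continuous fun t => Ring.inverse (p t) := by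
    rw [continuous_iff_continuousAt]
    intro t
    obtain ⟨u, hu⟩ := hu t
    have h1 := NormedRing.inverse_continuousAt u
    rw [hu] at h1
    exact ContinuousAt.comp (g := Ring.inverse) h1 hp.continuousAt
  have hclosed : IsClosed {t | Ring.inverse (p t) ∈ D} := hD.preimage hinv
  have hopen : IsOpen {t | Ring.inverse (p t) ∈ D} := by
    have key : {t | Ring.inverse (p t) ∈ D} = (fun t => (⟨p t, hpD t⟩ : D)) ⁻¹' {x | IsUnit x} := by
      ext t
      constructor
      · intro ht
        refine IsUnit.of_mul_eq_one ⟨Ring.inverse (p t), ht⟩ ?_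
        ext
        exact Ring.mul_inverse_cancel _ (hu t)
      · rintro ⟨u, hu'⟩
        have h1 : p t * ((u⁻¹ : Dˣ) : D) = 1 := by
          have : ((u : D) : C) = p t := by rw [hu']
          rw [← this]
          have h2 : (u : D) * ((u⁻¹ : Dˣ) : D) = 1 := u.mul_inv
          exact congrArg (fun x : D => (x : C)) h2
        have h2 : Ring.inverse (p t) = ((u⁻¹ : Dˣ) : D) := by
          rw [← mul_one (Ring.inverse (p t)), ← h1, ← mul_assoc,
            Ring.inverse_mul_cancel _ (hu t), one_mul]
        show Ring.inverse (p t) ∈ D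
        rw [h2]
        exact ((u⁻¹ : Dˣ) : D).2
    rw [key]
    exact Units.isOpen.preimage (Continuous.subtype_mk hp _)
  have huniv : {t | Ring.inverse (p t) ∈ D} = univ := by
    rcases isClopen_iff.1 ⟨hclosed, hopen⟩ with h | h
    · exact absurd h0 (by
        have : (0 : unitInterval) ∉ {t | Ring.inverse (p t) ∈ D} := by rw [h]; exact notMem_empty _
        exact this)
    · exact h
  have : (1 : unitInterval) ∈ {t | Ring.inverse (p t) ∈ D} := by rw [huniv]; exact mem_univ _
  exact this

/-- The coordinate function on the circle. -/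
noncomputable def zC : C(Circle, ℂ) := ⟨fun ζ => (ζ : ℂ), by fun_prop⟩

/-- The disc algebra, as a subalgebra of the continuous functions on the circle. -/
noncomputable def discAlg : Subalgebra ℂ C(Circle, ℂ) :=
  (Algebra.adjoin ℂ {zC}).topologicalClosure

theorem isClosed_discAlg : IsClosed (discAlg : Set C(Circle, ℂ)) :=
  Subalgebra.isClosed_topologicalClosure _

theorem zC_mem : zC ∈ discAlg :=
  Subalgebra.le_topologicalClosure _ (Algebra.subset_adjoin rfl)

/-- `1/z` is not in the disc algebra. -/
theorem inv_not_mem (w : C(Circle, ℂ)) (hw : w ∈ discAlg) : zC * w ≠ 1 := by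
  intro h
  have hcl : w ∈ closure ((Algebra.adjoin ℂ {zC} : Subalgebra ℂ C(Circle, ℂ)) :
      Set C(Circle, ℂ)) := hw
  obtain ⟨q, hq, hdist⟩ := Metric.mem_closure_iff.1 hcl 1 one_pos
  have hq' : q ∈ Algebra.adjoin ℂ {zC} := hq
  rw [Algebra.adjoin_singleton_eq_range_aeval] at hq'
  obtain ⟨P, hP⟩ := hq'
  have hev : ∀ ζ : Circle, q ζ = P.eval (ζ : ℂ) := by
    intro ζ
    rw [← hP]
    exact Polynomial.aeval_continuousMap_apply P zC ζ
  set d := dist w q with hd
  have hQ : ∀ ζ : ℂ, ‖ζ‖ = 1 → ‖(1 - Polynomial.X * P).eval ζ‖ ≤ d := by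
    intro ζ hζ
    obtain ⟨c, hc⟩ : ∃ c : Circle, (c : ℂ) = ζ := ⟨⟨ζ, mem_sphere_zero_iff_norm.2 hζ⟩, rfl⟩
    have h2 : ζ * w c = 1 := by
      rw [← hc]
      exact congrArg (fun f : C(Circle, ℂ) => f c) h
    have h4 : ‖w c - q c‖ ≤ d := by
      rw [← dist_eq_norm, hd]
      exact ContinuousMap.dist_apply_le_dist _
    rw [hev, hc] at h4
    simp only [Polynomial.eval_sub, Polynomial.eval_one, Polynomial.eval_mul, Polynomial.eval_X]
    rw [← h2, ← mul_sub, norm_mul, hζ, one_mul]
    exact h4
  have hmax := Complex.norm_le_of_forall_mem_frontier_norm_le (f := fun ζ : ℂ =>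
    (1 - Polynomial.X * P).eval ζ) (U := Metric.ball 0 1) (C := d) (z := 0)
    Metric.isBounded_ball (Polynomial.differentiable _).diffContOnCl (by
      intro ζ hζ
      rw [frontier_ball (0 : ℂ) one_ne_zero] at hζ
      exact hQ ζ (mem_sphere_zero_iff_norm.1 hζ)) (subset_closure (Metric.mem_ball_self one_pos))
  simp at hmax
  linarith

end Pool.Agent.MP3ada3c
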